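import Pool.Agent.H73.AZ.Flat
import Pool.Agent.H73.AD.Typ

/-! Most formulas are typical: clauses with few true literals. -/

namespace Pool.Agent.H73.AZ

open Finset Matrix Pool.Agent.H73.QA Pool.Agent.H73.AD

variable {n k : ℕ}

/-- few positions -/
theorem card_small (k r : ℕ) :
    ((univ : Finset (Finset (Fin k))).filter fun S => S.card ≤ r).card ≤ (k + 1) ^ r := by
  have h1 : ((univ : Finset (Finset (Fin k))).filter fun S => S.card ≤ r) ⊆
      (range (r + 1)).biUnion fun j => powersetCard j (univ : Finset (Fin k)) := by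
    intro S hS
    rw [mem_filter] at hS
    rw [mem_biUnion]
    exact ⟨S.card, mem_range.2 (by omega), mem_powersetCard.2 ⟨subset_univ S, rfl⟩⟩
  refine (card_le_card h1).trans (card_biUnion_le.trans ?_)
  rw [add_pow]
  refine sum_le_sum fun j hj => ?_
  rw [card_powersetCard, card_univ, Fintype.card_fin, one_pow, mul_one]
  have h2 : 1 ≤ r.choose j := Nat.choose_pos (by
    rw [mem_range] at hj
    omega)
  calc k.choose j ≤ k ^ j := Nat.choose_le_pow k j
    _ = k ^ j * 1 := (mul_one _).symm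
    _ ≤ k ^ j * r.choose j := Nat.mul_le_mul_left _ h2

/-- clauses with few true literals -/
theorem card_tl (r : ℕ) (x : Cube n) :
    ((univ.filter fun c : Clause n k => tl x c ≤ r).card : ℝ) ≤
      (k + 1) ^ r / 2 ^ k * Fintype.card (Clause n k) := by
  classical
  have h1 : (univ.filter fun c : Clause n k => tl x c ≤ r).card ≤
      ((univ : Finset (Fin k ↪ Fin n)) ×ˢ
        ((univ : Finset (Finset (Fin k))).filter fun S => S.card ≤ r)).card := by
    refine card_le_card_of_injOn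
      (fun c => (c.1, univ.filter fun i => x (c.1 i) ≠ c.2 i)) (fun c hc => ?_)
      fun c _ c' _ h => ?_
    · simp only [coe_filter, mem_univ, true_and, Set.mem_ofPred_eq] at hc
      simp only [coe_product, coe_univ, coe_filter, mem_univ, true_and, Set.mem_prod, Set.mem_univ,
        Set.mem_ofPred_eq]
      exact hc
    · simp only [Prod.mk.injEq] at h
      obtain ⟨h2, h3⟩ := h
      refine Prod.ext h2 (funext fun i => ?_)
      have h4 : (x (c.1 i) ≠ c.2 i) ↔ (x (c'.1 i) ≠ c'.2 i) := by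
        have h5 := Finset.ext_iff.1 h3 i
        simpa only [mem_filter, mem_univ, true_and] using h5
      rw [h2] at h4
      rcases hx : x (c'.1 i) <;> rcases h6 : c.2 i <;> rcases h7 : c'.2 i <;> simp_all
  rw [card_product, card_univ, Fintype.card_embedding_eq, Fintype.card_fin, Fintype.card_fin] at h1
  have h2 := h1.trans (Nat.mul_le_mul_left _ (card_small k r))
  have h3 : ((univ.filter fun c : Clause n k => tl x c ≤ r).card : ℝ) ≤
      (n.descFactorial k * (k + 1) ^ r : ℕ) := by exact_mod_cast h2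
  rw [card_clause]
  refine h3.trans (le_of_eq ?_)
  push_cast
  field_simp

/-- embeddings with prescribed positions outside of a set -/
theorem card_avoid {δ : ℝ} (hδ0 : 0 ≤ δ) (hδ1 : δ ≤ 1) {D : Finset (Fin n)}
    (hD : δ * n ≤ D.card) (A : Finset (Fin k)) :
    ((univ.filter fun v : Fin k ↪ Fin n => ∀ i ∈ A, v i ∉ D).card : ℝ) ≤
      (1 - δ) ^ A.card * n.descFactorial k := by
  classical
  obtain ⟨s, hs⟩ : ∃ s : Finset (Fin k ↪ Fin n), s = univ.filter fun v => ∀ i ∈ A, v i ∉ D :=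
    ⟨_, rfl⟩
  obtain ⟨ρ, hρ⟩ : ∃ ρ : (Fin k ↪ Fin n) → ({i // i ∈ A} ↪ Fin n),
      ρ = fun v => (Function.Embedding.subtype _).trans v := ⟨_, rfl⟩
  have hAk : A.card ≤ k := by
    have := card_le_univ A
    rwa [Fintype.card_fin] at this
  have h1 : s.card ≤ (n - A.card).descFactorial (k - A.card) * (s.image ρ).card := by
    refine card_le_mul_card_image s _ fun f _ => ?_
    have h2 : Fintype.card {x : Fin n // x ∉ univ.image f} = n - A.card := by
      rw [Fintype.card_subtype_compl (fun x => x ∈ univ.image f), Fintype.card_fin,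
        Fintype.card_coe, card_image_of_injective _ f.injective, card_univ, Fintype.card_coe]
    have h3 : Fintype.card {i : Fin k // i ∉ A} = k - A.card := by
      rw [Fintype.card_subtype_compl (fun i => i ∈ A), Fintype.card_fin, Fintype.card_coe]
    rw [← h2, ← h3, ← Fintype.card_embedding_eq, ← card_univ]
    have hval : ∀ v ∈ s.filter (fun v => ρ v = f), ∀ i : {i : Fin k // i ∉ A},
        v i.1 ∉ univ.image f := by
      intro v hv i hi
      rw [mem_filter] at hv
      obtain ⟨j, -, hj⟩ := mem_image.1 hi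
      have h4 : f j = v j.1 := by
        rw [← hv.2, hρ]
        rfl
      rw [h4] at hj
      exact i.2 ((v.injective hj) ▸ j.2)
    rw [← Fintype.card_coe (s.filter fun v => ρ v = f), card_univ]
    refine Fintype.card_le_of_injective (fun v : {v // v ∈ s.filter fun v => ρ v = f} =>
      (⟨fun i => ⟨v.1 i.1, hval v.1 v.2 i⟩, fun i j hij => Subtype.ext (v.1.injective
        (Subtype.ext_iff.1 hij))⟩ : {i : Fin k // i ∉ A} ↪ {x : Fin n // x ∉ univ.image f}))
      fun v v' h => ?_
    refine Subtype.ext (Function.Embedding.ext fun i => ?_)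
    by_cases hi : i ∈ A
    · have h5 : ∀ w : Fin k ↪ Fin n, ρ w = f → w i = f ⟨i, hi⟩ := by
        intro w hw
        rw [← hw, hρ]
        rfl
      rw [h5 v.1 (mem_filter.1 v.2).2, h5 v'.1 (mem_filter.1 v'.2).2]
    · have h5 := DFunLike.congr_fun h ⟨i, hi⟩
      exact Subtype.ext_iff.1 h5
  have h2 : (s.image ρ).card ≤ (n - D.card).descFactorial A.card := by
    have h3 : Fintype.card {x : Fin n // x ∉ D} = n - D.card := by
      rw [Fintype.card_subtype_compl (fun x => x ∈ D), Fintype.card_fin, Fintype.card_coe]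
    have h4 : Fintype.card {i : Fin k // i ∈ A} = A.card := Fintype.card_coe A
    rw [← h3, ← h4, ← Fintype.card_embedding_eq, ← Fintype.card_coe (s.image ρ)]
    have hval : ∀ f ∈ s.image ρ, ∀ i, f i ∉ D := by
      intro f hf i
      obtain ⟨v, hv, hvf⟩ := mem_image.1 hf
      rw [hs, mem_filter] at hv
      rw [← hvf, hρ]
      exact hv.2 i.1 i.2
    refine Fintype.card_le_of_injective (fun f : {f // f ∈ s.image ρ} =>
      (⟨fun i => ⟨f.1 i, hval f.1 f.2 i⟩, fun i j hij => f.1.injective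
        (Subtype.ext_iff.1 hij)⟩ : {i : Fin k // i ∈ A} ↪ {x : Fin n // x ∉ D}))
      fun f f' h => ?_
    refine Subtype.ext (Function.Embedding.ext fun i => ?_)
    exact Subtype.ext_iff.1 (DFunLike.congr_fun h i)
  have h3 := h1.trans (Nat.mul_le_mul_left _ h2)
  have h4 : (s.card : ℝ) ≤ ((n - A.card).descFactorial (k - A.card) : ℝ) *
      ((n - D.card).descFactorial A.card : ℝ) := by exact_mod_cast h3
  have h5 := desc_le hδ0 hδ1 hD A.card
  have h6 := Nat.descFactorial_mul_descFactorial (n := n) hAk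
  rw [← hs]
  calc (s.card : ℝ) ≤ ((n - A.card).descFactorial (k - A.card) : ℝ) *
      ((n - D.card).descFactorial A.card : ℝ) := h4
    _ ≤ ((n - A.card).descFactorial (k - A.card) : ℝ) *
        ((1 - δ) ^ A.card * n.descFactorial A.card) :=
        mul_le_mul_of_nonneg_left h5 (Nat.cast_nonneg _)
    _ = (1 - δ) ^ A.card * ((n - A.card).descFactorial (k - A.card) * n.descFactorial A.card : ℕ) := by
        push_cast
        ring
    _ = _ := by rw [h6]

/-- clauses violated by `z` with few true literals under `x` far from `z` -/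
theorem card_vtl {δ : ℝ} (r : ℕ) (hr : r ≤ k) (hδ0 : 0 < δ) (hδ1 : δ < 1) (z x : Cube n)
    (hx : x ∉ hball δ z) :
    ((univ.filter fun c : Clause n k => Violates z c ∧ tl x c ≤ r).card : ℝ) ≤
      (k + 1) ^ r * (1 - δ) ^ (k - r) / 2 ^ k * Fintype.card (Clause n k) := by
  classical
  have hd : δ * n ≤ (diff x z).card := by
    unfold hball at hx
    rw [mem_filter] at hx
    push Not at hx
    exact (hx (mem_univ _)).le
  have h1 : (univ.filter fun c : Clause n k => Violates z c ∧ tl x c ≤ r).card ≤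
      (((univ : Finset (Finset (Fin k))).filter fun S => S.card ≤ r).biUnion fun S =>
        univ.filter fun v : Fin k ↪ Fin n => ∀ i ∈ Sᶜ, v i ∉ diff x z).card := by
    refine card_le_card_of_injOn (fun c => c.1) (fun c hc => ?_) fun c hc c' hc' h => ?_
    · simp only [coe_filter, mem_univ, true_and, Set.mem_ofPred_eq] at hc
      rw [mem_coe, mem_biUnion]
      refine ⟨univ.filter fun i => x (c.1 i) ≠ c.2 i, ?_, ?_⟩
      · rw [mem_filter]
        exact ⟨mem_univ _, hc.2⟩
      · rw [mem_filter]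
        refine ⟨mem_univ _, fun i hi => ?_⟩
        rw [mem_compl, mem_filter] at hi
        push Not at hi
        have h2 := hi (mem_univ _)
        unfold diff
        rw [mem_filter]
        push Not
        intro _
        rw [h2]
        exact (hc.1 i).symm
    · simp only [coe_filter, mem_univ, true_and, Set.mem_ofPred_eq, Violates] at hc hc'
      refine Prod.ext h (funext fun i => ?_)
      have h2 : c.1 = c'.1 := h
      rw [← hc.1 i, ← hc'.1 i, h2]
  have hδ : 0 < 1 - δ := by linarith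
  have h2 : ∀ S ∈ (univ : Finset (Finset (Fin k))).filter (fun S => S.card ≤ r),
      ((univ.filter fun v : Fin k ↪ Fin n => ∀ i ∈ Sᶜ, v i ∉ diff x z).card : ℝ) ≤
        (1 - δ) ^ (k - r) * n.descFactorial k := by
    intro S hS
    refine (card_avoid hδ0.le hδ1.le hd Sᶜ).trans ?_
    refine mul_le_mul_of_nonneg_right ?_ (Nat.cast_nonneg _)
    refine pow_le_pow_of_le_one hδ.le (by linarith) ?_
    rw [card_compl, Fintype.card_fin]
    have := (mem_filter.1 hS).2
    omega
  have h3 : ((univ.filter fun c : Clause n k => Violates z c ∧ tl x c ≤ r).card : ℝ) ≤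
      ((k + 1) ^ r : ℕ) * ((1 - δ) ^ (k - r) * n.descFactorial k) := by
    calc ((univ.filter fun c : Clause n k => Violates z c ∧ tl x c ≤ r).card : ℝ)
        ≤ ∑ S ∈ (univ : Finset (Finset (Fin k))).filter (fun S => S.card ≤ r),
          ((univ.filter fun v : Fin k ↪ Fin n => ∀ i ∈ Sᶜ, v i ∉ diff x z).card : ℝ) := by
          exact_mod_cast h1.trans card_biUnion_le
      _ ≤ ∑ S ∈ (univ : Finset (Finset (Fin k))).filter (fun S => S.card ≤ r),
          (1 - δ) ^ (k - r) * n.descFactorial k := sum_le_sum h2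
      _ = (((univ : Finset (Finset (Fin k))).filter fun S => S.card ≤ r).card : ℝ) *
          ((1 - δ) ^ (k - r) * n.descFactorial k) := by rw [sum_const, nsmul_eq_mul]
      _ ≤ _ := by
          refine mul_le_mul_of_nonneg_right ?_ (by positivity)
          exact_mod_cast card_small k r
  rw [card_clause]
  refine h3.trans (le_of_eq ?_)
  push_cast
  field_simp

/-- most formulas are typical -/
theorem typR_count {ε δ ν : ℝ} (r : ℕ) (hε0 : 0 < ε) (hε1 : ε ≤ 1) (hδ0 : 0 < δ) (hδ1 : δ < 1)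
    (hν0 : 0 < ν) (_hν1 : ν ≤ 1) :
    ∃ C : ℝ, 0 < C ∧ ∃ k₀ : ℕ, ∀ k ≥ k₀, ∀ n : ℕ, 1 ≤ n → ∀ m : ℕ,
      C * 2 ^ k * n ≤ m →
      (Nat.card {G : Fin m → Clause n k // ¬ (Typ ε δ ν G ∧ TypR r δ ν G)} : ℝ) ≤
        Nat.card (Fin m → Clause n k) / 2 ^ n := by
  classical
  obtain ⟨c, hc⟩ : ∃ c : ℝ, c = min (ε ^ 2 / 4) (ν / 2) := ⟨_, rfl⟩
  have hc0 : 0 < c := by rw [hc]; exact lt_min (by positivity) (by positivity)
  have hc1 : c ≤ ε ^ 2 / 4 := by rw [hc]; exact min_le_left _ _
  have hc2 : c ≤ ν / 2 := by rw [hc]; exact min_le_right _ _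
  have hδ : 0 < 1 - δ := by linarith
  obtain ⟨k₁, hk₁⟩ : ∃ k₁ : ℕ, ∀ k ≥ k₁, r ≤ k ∧ ((k : ℝ) + 1) ^ r * (1 - δ) ^ (k - r) ≤ ν / 4 := by
    have h1 := tendsto_pow_const_mul_const_pow_of_abs_lt_one r (r := 1 - δ) (by
      rw [abs_of_pos hδ]
      linarith)
    have h2 := (Filter.tendsto_add_atTop_iff_nat (f := fun n : ℕ => (n : ℝ) ^ r * (1 - δ) ^ n)
      1).2 h1
    have h3 := h2.eventually_lt_const (show (0 : ℝ) < ν / 4 * (1 - δ) ^ (r + 1) by positivity)
    obtain ⟨k₁, hk₁⟩ := Filter.eventually_atTop.1 h3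
    refine ⟨max k₁ r, fun k hk => ?_⟩
    have hrk : r ≤ k := le_of_max_le_right hk
    refine ⟨hrk, ?_⟩
    have h4 := hk₁ k (le_of_max_le_left hk)
    have h5 : (1 - δ) ^ (k + 1) = (1 - δ) ^ (k - r) * (1 - δ) ^ (r + 1) := by
      rw [← pow_add]
      congr 1
      omega
    rw [h5, ← mul_assoc] at h4
    have h6 := lt_of_mul_lt_mul_right h4 (by positivity)
    push_cast at h6
    exact h6.le
  refine ⟨4 / c, by positivity, k₁, fun k hk n hn m hm => ?_⟩
  obtain ⟨hrk, hδk⟩ := hk₁ k hk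
  obtain ⟨q, hq⟩ : ∃ q : ℝ, q = m / 2 ^ k := ⟨_, rfl⟩
  have hq0 : 0 ≤ q := by rw [hq]; positivity
  have h2k : (0 : ℝ) < 2 ^ k := by positivity
  have hqn : 4 * (n : ℝ) ≤ c * q := by
    rw [hq]
    have h1 : 4 / c * 2 ^ k * n * (c / 2 ^ k) ≤ m * (c / 2 ^ k) :=
      mul_le_mul_of_nonneg_right hm (by positivity)
    have h2 : 4 / c * 2 ^ k * n * (c / 2 ^ k) = 4 * (n : ℝ) := by field_simp
    have h3 : (m : ℝ) * (c / 2 ^ k) = c * (m / 2 ^ k) := by ring
    rw [h2, h3] at h1
    exact h1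
  obtain ⟨N, hN⟩ : ∃ N : ℝ, N = Fintype.card (Clause n k) := ⟨_, rfl⟩
  have hN0 : 0 ≤ N := by rw [hN]; exact Nat.cast_nonneg _
  have he : Real.exp 1 < 2.72 := by
    have := Real.exp_one_lt_d9
    linarith
  have he1 : 1 < Real.exp 1 := by
    have := Real.exp_one_gt_d9
    linarith
  -- upper tail
  have hU : ∀ x : Cube n, ((univ.filter fun G : Fin m → Clause n k =>
      ε / 2 * ((1 + ε) * q) ≤ ε / 2 * cnt (fun c => Violates x c) G).card : ℝ) ≤
      N ^ m * Real.exp (-(c * q)) := by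
    intro x
    have h1 := chern (fun c : Clause n k => Violates x c) m (ε / 2) (1 / 2 ^ k)
      (ε / 2 * ((1 + ε) * q)) (le_of_eq (by rw [card_viol]))
    rw [← hN] at h1
    refine h1.trans (mul_le_mul_of_nonneg_left ?_ (by positivity))
    rw [Real.exp_le_exp]
    have h2 : Real.exp (ε / 2) - 1 ≤ ε / 2 + (ε / 2) ^ 2 := by
      have h3 := Real.abs_exp_sub_one_sub_id_le (x := ε / 2) (by
        rw [abs_of_pos (by positivity)]; linarith)
      have h4 := le_abs_self (Real.exp (ε / 2) - 1 - ε / 2)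
      linarith
    have h3 : (m : ℝ) * (1 / 2 ^ k * (Real.exp (ε / 2) - 1)) = q * (Real.exp (ε / 2) - 1) := by
      rw [hq]; ring
    rw [h3]
    have h4 : q * (Real.exp (ε / 2) - 1) ≤ q * (ε / 2 + (ε / 2) ^ 2) :=
      mul_le_mul_of_nonneg_left h2 hq0
    have h5 : c * q ≤ ε ^ 2 / 4 * q := mul_le_mul_of_nonneg_right hc1 hq0
    nlinarith
  -- lower tail
  have hD : ∀ x : Cube n, ((univ.filter fun G : Fin m → Clause n k =>
      -ε * ((1 - ε) * q) ≤ -ε * cnt (fun c => Violates x c) G).card : ℝ) ≤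
      N ^ m * Real.exp (-(c * q)) := by
    intro x
    have h1 := chern (fun c : Clause n k => Violates x c) m (-ε) (1 / 2 ^ k)
      (-ε * ((1 - ε) * q)) (le_of_eq (by rw [card_viol]))
    rw [← hN] at h1
    refine h1.trans (mul_le_mul_of_nonneg_left ?_ (by positivity))
    rw [Real.exp_le_exp]
    have h2 : Real.exp (-ε) - 1 ≤ -ε + ε ^ 2 / 2 := by
      have h1 := Real.quadratic_le_exp_of_nonneg hε0.le
      have h2 : Real.exp (-ε) * Real.exp ε = 1 := by rw [← Real.exp_add]; simp
      have h3 : 0 < Real.exp (-ε) := Real.exp_pos _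
      have h4 : Real.exp (-ε) * (1 + ε + ε ^ 2 / 2) ≤ 1 :=
        (mul_le_mul_of_nonneg_left h1 h3.le).trans h2.le
      have h5 : 1 ≤ (1 - ε + ε ^ 2 / 2) * (1 + ε + ε ^ 2 / 2) := by nlinarith [sq_nonneg (ε ^ 2)]
      have h6 : 0 < 1 + ε + ε ^ 2 / 2 := by positivity
      have h7 : Real.exp (-ε) * (1 + ε + ε ^ 2 / 2) ≤
          (1 - ε + ε ^ 2 / 2) * (1 + ε + ε ^ 2 / 2) := h4.trans h5
      have h8 := le_of_mul_le_mul_right h7 h6
      linarith
    have h3 : (m : ℝ) * (1 / 2 ^ k * (Real.exp (-ε) - 1)) = q * (Real.exp (-ε) - 1) := by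
      rw [hq]; ring
    rw [h3]
    have h4 : q * (Real.exp (-ε) - 1) ≤ q * (-ε + ε ^ 2 / 2) :=
      mul_le_mul_of_nonneg_left h2 hq0
    have h5 : c * q ≤ ε ^ 2 / 4 * q := mul_le_mul_of_nonneg_right hc1 hq0
    nlinarith [mul_nonneg hq0 (sq_nonneg ε)]
  -- few true literals
  have hT : ∀ x : Cube n, ((univ.filter fun G : Fin m → Clause n k =>
      1 * (2 * ((k : ℝ) + 1) ^ r * q) ≤ 1 * cnt (fun c => tl x c ≤ r) G).card : ℝ) ≤
      N ^ m * Real.exp (-(c * q)) := by
    intro x
    have h1 := chern (fun c : Clause n k => tl x c ≤ r) m 1 (((k : ℝ) + 1) ^ r / 2 ^ k)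
      (1 * (2 * ((k : ℝ) + 1) ^ r * q))
      (mul_le_mul_of_nonneg_right (card_tl r x) (by linarith))
    rw [← hN] at h1
    refine h1.trans (mul_le_mul_of_nonneg_left ?_ (by positivity))
    rw [Real.exp_le_exp]
    have h3 : (m : ℝ) * (((k : ℝ) + 1) ^ r / 2 ^ k * (Real.exp 1 - 1)) =
        q * ((k : ℝ) + 1) ^ r * (Real.exp 1 - 1) := by rw [hq]; ring
    rw [h3]
    have h4 : q ≤ q * ((k : ℝ) + 1) ^ r := by
      have h5 : (1 : ℝ) ≤ ((k : ℝ) + 1) ^ r := one_le_pow₀ (by
        have : (0 : ℝ) ≤ k := Nat.cast_nonneg k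
        linarith)
      calc q = q * 1 := (mul_one q).symm
        _ ≤ _ := mul_le_mul_of_nonneg_left h5 hq0
    have h5 : c ≤ 1 / 4 := by
      refine hc1.trans ?_
      have : ε ^ 2 ≤ 1 := pow_le_one₀ hε0.le hε1
      linarith
    have h6 : c * q ≤ 1 / 4 * q := mul_le_mul_of_nonneg_right h5 hq0
    have h7 : 1 / 4 * q ≤ (3 - Real.exp 1) * (q * ((k : ℝ) + 1) ^ r) := by
      refine mul_le_mul (by linarith) h4 hq0 (by linarith)
    nlinarith
  -- pairs
  have hW : ∀ zx : Cube n × Cube n, zx.2 ∉ hball δ zx.1 →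
      ((univ.filter fun G : Fin m → Clause n k =>
      1 * (ν * q) ≤ 1 * cnt (fun c => Violates zx.1 c ∧ tl zx.2 c ≤ r) G).card : ℝ) ≤
      N ^ m * Real.exp (-(c * q)) := by
    intro zx hzx
    have h1 := chern (fun c : Clause n k => Violates zx.1 c ∧ tl zx.2 c ≤ r) m 1
      (((k : ℝ) + 1) ^ r * (1 - δ) ^ (k - r) / 2 ^ k) (1 * (ν * q))
      (mul_le_mul_of_nonneg_right (card_vtl r hrk hδ0 hδ1 zx.1 zx.2 hzx) (by linarith))
    rw [← hN] at h1
    refine h1.trans (mul_le_mul_of_nonneg_left ?_ (by positivity))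
    rw [Real.exp_le_exp]
    have h3 : (m : ℝ) * (((k : ℝ) + 1) ^ r * (1 - δ) ^ (k - r) / 2 ^ k * (Real.exp 1 - 1)) =
        q * (((k : ℝ) + 1) ^ r * (1 - δ) ^ (k - r) * (Real.exp 1 - 1)) := by rw [hq]; ring
    rw [h3]
    have h4 : ((k : ℝ) + 1) ^ r * (1 - δ) ^ (k - r) * (Real.exp 1 - 1) ≤ ν / 4 * 2 :=
      mul_le_mul hδk (by linarith) (by linarith) (by linarith)
    have h5 : q * (((k : ℝ) + 1) ^ r * (1 - δ) ^ (k - r) * (Real.exp 1 - 1)) ≤ q * (ν / 4 * 2) :=
      mul_le_mul_of_nonneg_left h4 hq0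
    have h6 : c * q ≤ ν / 2 * q := mul_le_mul_of_nonneg_right hc2 hq0
    linarith
  -- union
  have hsub : (univ.filter fun G : Fin m → Clause n k => ¬ (Typ ε δ ν G ∧ TypR r δ ν G)) ⊆
      (((univ : Finset (Cube n)).biUnion fun x => univ.filter fun G : Fin m → Clause n k =>
        ε / 2 * ((1 + ε) * q) ≤ ε / 2 * cnt (fun c => Violates x c) G) ∪
      ((univ : Finset (Cube n)).biUnion fun x => univ.filter fun G : Fin m → Clause n k =>
        -ε * ((1 - ε) * q) ≤ -ε * cnt (fun c => Violates x c) G)) ∪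
      (((univ : Finset (Cube n)).biUnion fun x => univ.filter fun G : Fin m → Clause n k =>
        1 * (2 * ((k : ℝ) + 1) ^ r * q) ≤ 1 * cnt (fun c => tl x c ≤ r) G) ∪
      ((univ.filter fun zx : Cube n × Cube n => zx.2 ∉ hball δ zx.1).biUnion fun zx =>
        univ.filter fun G : Fin m → Clause n k =>
        1 * (ν * q) ≤ 1 * cnt (fun c => Violates zx.1 c ∧ tl zx.2 c ≤ r) G)) := by
    intro G hG
    rw [mem_filter] at hG
    by_contra hno
    apply hG.2
    simp only [mem_union, mem_biUnion, mem_filter, mem_univ, true_and, not_or, not_exists,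
      not_and, not_le] at hno
    obtain ⟨⟨n1, n2⟩, n3, n4⟩ := hno
    have hv : ∀ x, (cnt (fun c : Clause n k => Violates x c) G : ℝ) = viol G x := fun x => rfl
    have t4 : ∀ z x : Cube n, x ∉ hball δ z →
        ((univ.filter fun j => Violates z (G j) ∧ tl x (G j) ≤ r).card : ℝ) ≤
          ν * (m / 2 ^ k) := by
      intro z x hx
      have a1 := n4 (z, x) hx
      rw [← hq]
      simp only [one_mul] at a1
      exact a1.le
    refine ⟨⟨fun x => ?_, fun z x hx => ?_⟩, ⟨fun x => ?_, t4⟩⟩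
    · rw [abs_le, ← hq]
      have a1 := n1 x
      have a2 := n2 x
      rw [hv] at a1 a2
      have a3 : (viol G x : ℝ) < (1 + ε) * q := lt_of_mul_lt_mul_left a1 (by positivity)
      have a4 : (1 - ε) * q < (viol G x : ℝ) := by
        have a5 : ε * ((1 - ε) * q) < ε * viol G x := by linarith
        exact lt_of_mul_lt_mul_left a5 hε0.le
      constructor <;> linarith
    · refine le_trans ?_ (t4 z x hx)
      unfold Wn
      have a1 : (univ.filter fun j => Violates z (G j) ∧ Violates x (G j)) ⊆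
          univ.filter fun j => Violates z (G j) ∧ tl x (G j) ≤ r := by
        intro j hj
        rw [mem_filter] at hj ⊢
        refine ⟨hj.1, hj.2.1, ?_⟩
        have a2 : tl x (G j) = 0 := by
          unfold tl
          rw [card_eq_zero, filter_eq_empty_iff]
          intro i _
          push Not
          exact hj.2.2 i
        omega
      exact_mod_cast card_le_card a1
    · have a1 := n3 x
      rw [← hq]
      simp only [one_mul] at a1
      exact a1.le
  have hcardC : (Fintype.card (Cube n) : ℝ) = 2 ^ n := by simp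
  have hE0 : 0 ≤ N ^ m * Real.exp (-(c * q)) := by positivity
  have hcard : ((univ.filter fun G : Fin m → Clause n k =>
      ¬ (Typ ε δ ν G ∧ TypR r δ ν G)).card : ℝ) ≤
      (2 ^ n + 2 ^ n + (2 ^ n + 4 ^ n)) * (N ^ m * Real.exp (-(c * q))) := by
    have b2 := card_le_card hsub
    have b3 := b2.trans ((card_union_le _ _).trans (Nat.add_le_add (card_union_le _ _)
      (card_union_le _ _)))
    have b4 := b3.trans (Nat.add_le_add (Nat.add_le_add card_biUnion_le card_biUnion_le)
      (Nat.add_le_add card_biUnion_le card_biUnion_le))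
    have b5 : ((univ.filter fun G : Fin m → Clause n k =>
        ¬ (Typ ε δ ν G ∧ TypR r δ ν G)).card : ℝ) ≤
        (∑ x : Cube n, ((univ.filter fun G : Fin m → Clause n k =>
          ε / 2 * ((1 + ε) * q) ≤ ε / 2 * cnt (fun c => Violates x c) G).card : ℝ) +
        ∑ x : Cube n, ((univ.filter fun G : Fin m → Clause n k =>
          -ε * ((1 - ε) * q) ≤ -ε * cnt (fun c => Violates x c) G).card : ℝ)) +
        (∑ x : Cube n, ((univ.filter fun G : Fin m → Clause n k =>
          1 * (2 * ((k : ℝ) + 1) ^ r * q) ≤ 1 * cnt (fun c => tl x c ≤ r) G).card : ℝ) +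
        ∑ zx ∈ univ.filter (fun zx : Cube n × Cube n => zx.2 ∉ hball δ zx.1),
          ((univ.filter fun G : Fin m → Clause n k =>
          1 * (ν * q) ≤ 1 * cnt (fun c => Violates zx.1 c ∧ tl zx.2 c ≤ r) G).card : ℝ)) := by
      exact_mod_cast b4
    refine b5.trans ?_
    have b6 : ((2 : ℝ) ^ n + 2 ^ n + (2 ^ n + 4 ^ n)) * (N ^ m * Real.exp (-(c * q))) =
        (2 ^ n * (N ^ m * Real.exp (-(c * q))) + 2 ^ n * (N ^ m * Real.exp (-(c * q)))) +
        (2 ^ n * (N ^ m * Real.exp (-(c * q))) + 4 ^ n * (N ^ m * Real.exp (-(c * q)))) := by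
      ring
    rw [b6]
    refine add_le_add (add_le_add ?_ ?_) (add_le_add ?_ ?_)
    · refine (sum_le_sum fun x _ => hU x).trans (le_of_eq ?_)
      rw [sum_const, card_univ, nsmul_eq_mul, hcardC]
    · refine (sum_le_sum fun x _ => hD x).trans (le_of_eq ?_)
      rw [sum_const, card_univ, nsmul_eq_mul, hcardC]
    · refine (sum_le_sum fun x _ => hT x).trans (le_of_eq ?_)
      rw [sum_const, card_univ, nsmul_eq_mul, hcardC]
    · refine (sum_le_sum fun x hx => hW x (mem_filter.1 hx).2).trans ?_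
      rw [sum_const, nsmul_eq_mul]
      refine mul_le_mul_of_nonneg_right ?_ hE0
      have b5 : (univ.filter fun zx : Cube n × Cube n => zx.2 ∉ hball δ zx.1).card ≤
          Fintype.card (Cube n × Cube n) := card_filter_le _ _
      have b6 : (Fintype.card (Cube n × Cube n) : ℝ) = 4 ^ n := by
        rw [Fintype.card_prod]
        push_cast
        rw [hcardC, ← mul_pow]
        norm_num
      rw [← b6]
      exact_mod_cast b5
  have hfin : ((2 : ℝ) ^ n + 2 ^ n + (2 ^ n + 4 ^ n)) * (N ^ m * Real.exp (-(c * q))) ≤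
      N ^ m / 2 ^ n := by
    have f1 : Real.exp (-(c * q)) ≤ Real.exp (-(4 * (n : ℝ))) := by
      rw [Real.exp_le_exp]
      linarith
    have f2 : Real.exp (-(4 * (n : ℝ))) ≤ 1 / 24 ^ n := by
      rw [Real.exp_neg, ← one_div]
      refine one_div_le_one_div_of_le (by positivity) ?_
      have f3 : (24 : ℝ) ≤ Real.exp 4 := by
        have f4 := Real.exp_one_gt_d9
        have f5 : Real.exp 4 = Real.exp 1 ^ 4 := by
          rw [← Real.exp_nat_mul]
          norm_num
        rw [f5]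
        have f6 : (2.7 : ℝ) ^ 4 ≤ Real.exp 1 ^ 4 :=
          pow_le_pow_left₀ (by norm_num) (by linarith) 4
        refine le_trans (by norm_num) f6
      calc (24 : ℝ) ^ n ≤ Real.exp 4 ^ n := pow_le_pow_left₀ (by norm_num) f3 n
        _ = Real.exp (4 * n) := by rw [← Real.exp_nat_mul]; ring_nf
    have f4 : (3 : ℝ) ≤ 3 ^ n := by
      calc (3 : ℝ) = 3 ^ 1 := by norm_num
        _ ≤ 3 ^ n := pow_le_pow_right₀ (by norm_num) hn
    have f4' : (2 : ℝ) ≤ 2 ^ n := by
      calc (2 : ℝ) = 2 ^ 1 := by norm_num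
        _ ≤ 2 ^ n := pow_le_pow_right₀ (by norm_num) hn
    have f3 : 2 * (2 : ℝ) ^ n ≤ 4 ^ n := by
      have h4 : (4 : ℝ) ^ n = 2 ^ n * 2 ^ n := by rw [← mul_pow]; norm_num
      rw [h4]
      exact mul_le_mul_of_nonneg_right f4' (by positivity)
    have hM : 0 ≤ N ^ m := by positivity
    have f5 : (2 : ℝ) ^ n + 2 ^ n + (2 ^ n + 4 ^ n) ≤ 3 ^ n * 4 ^ n := by
      have h4 : (0 : ℝ) < 4 ^ n := by positivity
      have h5 : 3 * (4 : ℝ) ^ n ≤ 3 ^ n * 4 ^ n := mul_le_mul_of_nonneg_right f4 h4.le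
      have h6 : (0 : ℝ) < 2 ^ n := by positivity
      linarith
    calc ((2 : ℝ) ^ n + 2 ^ n + (2 ^ n + 4 ^ n)) * (N ^ m * Real.exp (-(c * q)))
        ≤ (3 ^ n * 4 ^ n) * (N ^ m * (1 / 24 ^ n)) := by
          refine mul_le_mul f5 (mul_le_mul_of_nonneg_left (f1.trans f2) hM) (by positivity)
            (by positivity)
      _ = N ^ m / 2 ^ n := by
          rw [← mul_pow]
          have : (24 : ℝ) ^ n = (3 * 4) ^ n * 2 ^ n := by rw [← mul_pow]; norm_num
          rw [this]
          field_simp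
  have e1 : (Nat.card {G : Fin m → Clause n k // ¬ (Typ ε δ ν G ∧ TypR r δ ν G)} : ℝ) =
      ((univ.filter fun G : Fin m → Clause n k => ¬ (Typ ε δ ν G ∧ TypR r δ ν G)).card : ℝ) := by
    rw [Nat.card_eq_fintype_card, Fintype.card_subtype]
  have e2 : (Nat.card (Fin m → Clause n k) : ℝ) = N ^ m := by
    rw [Nat.card_eq_fintype_card, Fintype.card_fun, Fintype.card_fin, hN]
    push_cast
    rfl
  rw [e1, e2]
  exact hcard.trans hfin

end Pool.Agent.H73.AZ
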